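import Mathlib
import Pool.Agent.H17.PermInt.Defs
import Pool.Agent.H52.ThreeStar.Main

open Pool.Agent.H17.PermInt Nat

/-- For all `t ≥ 1` and `n ≥ 3t` there is a `(t-1)`-intersection-free family in `S_n` with at least
`(3/2 - 4 (n - 3t + 1) / √t) (n-t)!` members. Hence, for `64 (n - 3t + 1)² < t`, the two extremal
problems do not coincide if no `t`-intersecting family has more than `(n-t)!` members. -/
theorem Pool.Agent.Results.MP_ee287f_co.AboveThreeT.result (n t : ℕ) (ht : 1 ≤ t)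
    (hn : 3 * t ≤ n) :
    (∃ G : Finset (Equiv.Perm (Fin n)), IsAvoiding t G ∧
      ((3 / 2 : ℝ) - 4 * ((n : ℝ) - 3 * t + 1) / Real.sqrt t) * ((n - t)! : ℝ) ≤ G.card) ∧
    (64 * (n - 3 * t + 1) ^ 2 < t →
      (∃ G : Finset (Equiv.Perm (Fin n)), IsAvoiding t G ∧ (n - t)! < G.card) ∧
      ((∀ F : Finset (Equiv.Perm (Fin n)), IsIntersecting t F → F.card ≤ (n - t)!) →
        ¬ Coincide n t)) := by
  obtain ⟨g, rfl⟩ : ∃ g, n = 3 * t + g := ⟨n - 3 * t, by omega⟩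
  refine ⟨?_, fun h => ?_⟩
  · obtain ⟨G, hG, hGc⟩ := Pool.Agent.H52.ThreeStar.three_star (n := 3 * t + g) ht rfl
    refine ⟨G, hG, ?_⟩
    have h1 : (((3 * t + g : ℕ) : ℝ) - 3 * t + 1) = (g : ℝ) + 1 := by
      push_cast
      ring
    rw [h1]
    exact hGc
  · have h1 : 3 * t + g - 3 * t + 1 = g + 1 := by omega
    rw [h1] at h
    obtain ⟨G, hG, hGc⟩ := Pool.Agent.H52.ThreeStar.three_star_more (n := 3 * t + g) h rfl
    exact ⟨⟨G, hG, hGc⟩,
      Pool.Agent.H52.ThreeStar.not_coincide_of_more (by omega) G hG hGc⟩
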