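import Mathlib
import Pool.Agent.H17.PermInt.Defs
import Pool.Agent.H17.PermInt.Asymp

open Pool.Agent.H17.PermInt

/-- For every `ε > 0`, all large `t` and all `t ≤ n ≤ (3 - ε) t`, the largest
`(t-1)`-intersection-free families in `S_n` are at least twice as large as the largest
`t`-intersecting families, and the two extremal problems do not coincide. -/
theorem Pool.Agent.Results.MP_ee287f_co.BelowThreeT.result (ε : ℝ) (hε : 0 < ε) :
    ∃ t₀ : ℕ, ∀ n t : ℕ, t₀ ≤ t → t ≤ n → (n : ℝ) ≤ (3 - ε) * t →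
      (∀ F : Finset (Equiv.Perm (Fin n)), IsIntersecting t F →
        ∃ G : Finset (Equiv.Perm (Fin n)), IsAvoiding t G ∧ 2 * F.card ≤ G.card) ∧
      ¬ Coincide n t := by
  obtain ⟨t₀, h⟩ := double_asymp ε hε
  exact ⟨t₀, fun n t ht htn hnt =>
    ⟨h n t ht htn hnt, not_coincide_of_double htn (h n t ht htn hnt)⟩⟩
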