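import Mathlib
import Pool.Agent.H17.PermInt.Defs
import Pool.Agent.CL24.MainL

open Pool.Agent.H17.PermInt

/-- There is an absolute constant `C` such that for all `t ≥ 1` and all `n ≥ C t` the two extremal
problems coincide, and the largest families are exactly the cosets of the pointwise stabilisers of
`t` points. -/
theorem Pool.Agent.Results.MP_ee287f_co.CoincideLinear.result : ∃ C : ℕ, ∀ t n : ℕ, 1 ≤ t →
    C * t ≤ n →
    Coincide n t ∧ ∀ F : Finset (Equiv.Perm (Fin n)), IsLargest (IsAvoiding t) F ↔
      ∃ (S : Finset (Fin n)) (π : Equiv.Perm (Fin n)), S.card = t ∧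
        F = Finset.univ.filter fun σ => ∀ i ∈ S, σ i = π i :=
  Pool.Agent.CL24.mainL
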