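import Mathlib
import Pool.Agent.H17.PermInt.Defs
import Pool.Agent.H17.PermInt.Stars

open Pool.Agent.H17.PermInt Nat

/-- For all `2 ≤ t ≤ n ≤ 3t - 1` there is a `(t-1)`-intersection-free family in `S_n` which is not
`t`-intersecting and has at least `(n-t)!` members (at least `2 (n-t)!` if `n ≤ 3t - 2`). Hence the
two extremal problems do not coincide if no `t`-intersecting family has more than `(n-t)!`
members. -/
theorem Pool.Agent.Results.MP_ee287f_co.StarsBelowThreeT.result (n t : ℕ) (ht : 2 ≤ t)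
    (htn : t ≤ n) (hn : n ≤ 3 * t - 1) :
    (∃ G : Finset (Equiv.Perm (Fin n)), IsAvoiding t G ∧ ¬ IsIntersecting t G ∧
      (n - t)! ≤ G.card ∧ (n ≤ 3 * t - 2 → 2 * (n - t)! ≤ G.card)) ∧
    ((∀ F : Finset (Equiv.Perm (Fin n)), IsIntersecting t F → F.card ≤ (n - t)!) →
      ¬ Coincide n t) :=
  ⟨star_family ht htn hn, not_coincide_of_star ht htn hn⟩
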